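import Pool.Agent.H251Z.CJPos
import Pool.Agent.H251Z.CJNeg

/-!
The question of Cao and Junnila: pseudocompleteness and subcompactness of a metric space pass to
its Wijsman hyperspace, base-compactness does not.
-/

set_option autoImplicit false

namespace Pool.Agent.Results.MP_091b66_gt.AllThree

open Pool.Agent.H251Z.Wij

/-- (a) and (b) hold, (c) fails. -/
theorem result :
    (∀ (X : Type) [MetricSpace X], Pseudocomplete X → @Pseudocomplete (CL X) (wijsman X)) ∧
    (∀ (X : Type) [MetricSpace X], Subcompact X → @Subcompact (CL X) (wijsman X)) ∧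
    (∃ (X : Type) (_ : MetricSpace X), BaseCompact X ∧ ¬ @BaseCompact (CL X) (wijsman X)) :=
  ⟨pseudocomplete_wijsman, subcompact_wijsman, Sp, metSp, sp_baseCompact, not_baseCompact⟩

end Pool.Agent.Results.MP_091b66_gt.AllThree
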